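import Pool.Agent.Lib.Pc0b458V.Harm
import Pool.Agent.Lib.Pc0b458V.Incl

/-!
# Coefficients of a class

`int_gen`: the trace of `pol ^ j * x * mo (-η) U` in terms of the coefficients of `x`.
`co z η T` is the coefficient of `mo η T` in `z`, up to a nonzero factor.
-/

open Finset ComplexConjugate

namespace Pc0b458V

namespace CMAb

variable (A : CMAb)

theorem g_int_mul_pol_pow (z : Coh A.g 1) (k : ℕ) :
    A.int (z * pol A.g ^ k) =
      (k.factorial : ℂ) * ∑ W ∈ powersetCard k univ, A.int (z * dT W) := by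
  rw [pol_pow, en, mul_smul_comm, mul_sum, map_smul, map_sum, smul_eq_mul]

theorem g_sum_W {η : Fin A.g → ℤ} {T T' : Finset (Fin A.g)} {k l : ℕ}
    (hη : ∀ s, η s = -1 ∨ η s = 0 ∨ η s = 1) (hk : size η = 2 * k)
    (hT : ∀ s ∈ T, η s = 0) (hT' : ∀ s ∈ T', η s = 0)
    (hl : 2 * k + T.card + T'.card + l = A.g) :
    ∑ W ∈ powersetCard l univ, A.int (mo η T * mo (-η) T' * dT W) =
      if Disjoint T T' then (-1 : ℂ) ^ k * (sg η : ℂ) * A.top else 0 := by
  have h1 : ∀ W ∈ powersetCard l (univ : Finset (Fin A.g)),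
      A.int (mo η T * mo (-η) T' * dT W) =
      if Disjoint T T' ∧ W = (supp η ∪ T ∪ T')ᶜ then (-1 : ℂ) ^ k * (sg η : ℂ) * A.top else 0 :=
    fun W _ => A.int_mul_neg hη hk hT hT'
  rw [sum_congr rfl h1]
  by_cases hd : Disjoint T T'
  · simp only [hd, true_and, if_true]
    rw [sum_ite_eq' (powersetCard l univ) ((supp η ∪ T ∪ T')ᶜ)
      (fun _ => (-1 : ℂ) ^ k * (sg η : ℂ) * A.top), if_pos]
    rw [mem_powersetCard]
    refine ⟨subset_univ _, ?_⟩
    have h2 : Disjoint (supp η) T := by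
      rw [Finset.disjoint_left]
      intro s hs hs'
      exact (mem_filter.1 hs).2 (hT s hs')
    have h3 : Disjoint (supp η ∪ T) T' := by
      rw [Finset.disjoint_union_left]
      refine ⟨?_, hd⟩
      rw [Finset.disjoint_left]
      intro s hs hs'
      exact (mem_filter.1 hs).2 (hT' s hs')
    rw [card_compl, card_union_of_disjoint h3, card_union_of_disjoint h2, Fintype.card_fin,
      ← size_eq_card hη, hk]
    omega
  · simp [hd]

theorem g_pol_comm (j : ℕ) (z : Coh A.g 1) : pol A.g ^ j * z = z * pol A.g ^ j := by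
  rw [pol_pow, en, smul_mul_assoc, mul_smul_comm, sum_mul, mul_sum]
  congr 1
  exact sum_congr rfl fun W _ => dT_comm W z

/-- the trace in terms of the coefficients -/
theorem int_gen {d j : ℕ} (c : (Fin A.g → ℤ) × Finset (Fin A.g) → ℂ)
    {η : Fin A.g → ℤ} {U : Finset (Fin A.g)} {k : ℕ} (hη : ∀ s, η s = -1 ∨ η s = 0 ∨ η s = 1)
    (hU : ∀ s ∈ U, η s = 0) (hk : size η = 2 * k) (hkd : k ≤ d)
    (hn : d + j + k + U.card = A.g) :
    A.int (pol A.g ^ j * (∑ p ∈ idx A.g (2 * d), c p • mo p.1 p.2) * mo (-η) U) =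
      (j.factorial : ℂ) * A.top * ((-1 : ℂ) ^ k * (sg η : ℂ) *
        ∑ T ∈ powersetCard (d - k) (zer η) with Disjoint T U, c (η, T)) := by
  rw [mul_assoc, A.g_pol_comm, g_int_mul_pol_pow, mul_assoc]
  congr 1
  have h1 : ∀ W : Finset (Fin A.g), A.int ((∑ p ∈ idx A.g (2 * d), c p • mo p.1 p.2) *
      mo (-η) U * dT W) =
      ∑ p ∈ idx A.g (2 * d), c p * A.int (mo p.1 p.2 * mo (-η) U * dT W) := by
    intro W
    rw [sum_mul, sum_mul, map_sum]
    refine sum_congr rfl fun p _ => ?_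
    rw [smul_mul_assoc, smul_mul_assoc, map_smul, smul_eq_mul]
  simp only [h1]
  rw [sum_comm]
  have hη' : ∀ s, (-η) s = -1 ∨ (-η) s = 0 ∨ (-η) s = 1 := by
    intro s
    simp only [Pi.neg_apply]
    rcases hη s with h | h | h <;> simp [h]
  have hU' : ∀ s ∈ U, (-η) s = 0 := by
    intro s hs
    simp [hU s hs]
  have hval : ∀ T ∈ powersetCard (d - k) (zer η),
      ∑ W ∈ powersetCard j univ, c (η, T) *
        A.int (mo η T * mo (-η) U * dT W) =
      if Disjoint T U then c (η, T) * ((-1 : ℂ) ^ k * (sg η : ℂ) * A.top) else 0 := by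
    intro T hT
    obtain ⟨hT1, hT2⟩ := mem_powersetCard.1 hT
    rw [← mul_sum, A.g_sum_W hη hk (fun s hs => (mem_filter.1 (hT1 hs)).2) hU (by omega)]
    split_ifs
    · rfl
    · rw [mul_zero]
  have hsub : ∑ q ∈ idx A.g (2 * d), ∑ W ∈ powersetCard j univ,
      c q * A.int (mo q.1 q.2 * mo (-η) U * dT W) =
      ∑ T ∈ powersetCard (d - k) (zer η), ∑ W ∈ powersetCard j univ,
        c (η, T) * A.int (mo η T * mo (-η) U * dT W) := by
    refine Eq.trans ?_ (sum_map (powersetCard (d - k) (zer η))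
      (⟨fun T' => (η, T'), fun a b h => (Prod.mk.inj h).2⟩ :
        Finset (Fin A.g) ↪ (Fin A.g → ℤ) × Finset (Fin A.g))
      (fun q => ∑ W ∈ powersetCard j univ,
        c q * A.int (mo q.1 q.2 * mo (-η) U * dT W)))
    symm
    apply sum_subset
    · intro q hq
      obtain ⟨T', hT', rfl⟩ := mem_map.1 hq
      obtain ⟨hT'1, hT'2⟩ := mem_powersetCard.1 hT'
      exact mem_idx.2 ⟨hη, fun s hs => (mem_filter.1 (hT'1 hs)).2, by omega⟩
    · rintro ⟨θ, T'⟩ hq hq'
      obtain ⟨hθ, hθT, hθs⟩ := mem_idx.1 hq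
      have hne : -η ≠ -θ := by
        intro h
        have h2 : θ = η := (neg_injective h).symm
        subst h2
        apply hq'
        rw [mem_map]
        refine ⟨T', ?_, rfl⟩
        rw [mem_powersetCard]
        refine ⟨?_, by omega⟩
        intro s hs
        exact mem_filter.2 ⟨mem_univ _, hθT s hs⟩
      apply sum_eq_zero
      intro W _
      rw [A.int_mul_ne hθ hη' hθT hU' hne, mul_zero]
  rw [hsub, sum_congr rfl hval, ← sum_filter, mul_sum, mul_sum]
  refine sum_congr rfl fun T' _ => ?_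
  ring

/-- the coefficient of `mo η T` in `z`, up to a factor -/
noncomputable def co (z : Coh A.g 1) (η : Fin A.g → ℤ) (T : Finset (Fin A.g)) : ℂ :=
  A.int (z * mo (-η) (zer η \ T))

/-- the factor is not zero -/
theorem unit_ne {η : Fin A.g → ℤ} (hη : ∀ s, η s = -1 ∨ η s = 0 ∨ η s = 1) (k j : ℕ) :
    (j.factorial : ℂ) * A.top * ((-1 : ℂ) ^ k * (sg η : ℂ)) ≠ 0 := by
  refine mul_ne_zero (fact_top_ne j) (mul_ne_zero (pow_ne_zero _ (by norm_num)) (sg_ne hη))

theorem co_eq {d : ℕ} {z : Coh A.g 1} {c : (Fin A.g → ℤ) × Finset (Fin A.g) → ℂ}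
    (hc : z = ∑ p ∈ idx A.g (2 * d), c p • mo p.1 p.2) {η : Fin A.g → ℤ} {T : Finset (Fin A.g)}
    (h : (η, T) ∈ idx A.g (2 * d)) :
    ∃ w : ℂ, w ≠ 0 ∧ A.co z η T = w * c (η, T) := by
  obtain ⟨hη, hT, hs⟩ := mem_idx.1 h
  have hTz : T ⊆ zer η := fun s hs' => mem_filter.2 ⟨mem_univ _, hT s hs'⟩
  obtain ⟨k, hk⟩ : ∃ k, size η = 2 * k := ⟨d - T.card, by omega⟩
  have hcard := card_zer hη
  have hkd : k ≤ d := by omega
  have hdk : d - k = T.card := by omega
  have hsd : (zer η \ T).card = (zer η).card - T.card := card_sdiff_of_subset hTz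
  have hle := card_le_card hTz
  have h1 := A.int_gen (j := 0) c hη (U := zer η \ T)
    (fun s hs' => (mem_filter.1 (mem_sdiff.1 hs').1).2) hk hkd (by rw [hsd]; omega)
  rw [pow_zero, one_mul, ← hc] at h1
  refine ⟨_, A.unit_ne hη k 0, ?_⟩
  rw [co, h1, ← mul_assoc]
  congr 1
  rw [hdk]
  rw [Finset.sum_eq_single T]
  · intro T' hT' hne
    exfalso
    apply hne
    obtain ⟨h2, h3⟩ := mem_filter.1 hT'
    obtain ⟨h4, h5⟩ := mem_powersetCard.1 h2
    apply eq_of_subset_of_card_le _ (by omega)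
    intro s hs'
    by_contra hcon
    exact (Finset.disjoint_left.1 h3) hs' (mem_sdiff.2 ⟨h4 hs', hcon⟩)
  · intro hne
    exfalso
    apply hne
    rw [mem_filter, mem_powersetCard]
    exact ⟨⟨hTz, rfl⟩, Finset.disjoint_sdiff⟩

theorem co_eq_zero {d : ℕ} {z : Coh A.g 1} {c : (Fin A.g → ℤ) × Finset (Fin A.g) → ℂ}
    (hc : z = ∑ p ∈ idx A.g (2 * d), c p • mo p.1 p.2) {η : Fin A.g → ℤ} {T : Finset (Fin A.g)}
    (h : (η, T) ∈ idx A.g (2 * d)) : A.co z η T = 0 ↔ c (η, T) = 0 := by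
  obtain ⟨w, hw, e⟩ := A.co_eq hc h
  rw [e]
  constructor
  · intro h1
    exact (mul_eq_zero.1 h1).resolve_left hw
  · intro h1
    rw [h1, mul_zero]

/-- if the coefficients of weight `η` vanish then so does the trace -/
theorem int_zero {d j : ℕ} {z : Coh A.g 1} (hz : z ∈ gr A.g 1 (2 * d)) {η : Fin A.g → ℤ}
    (hη : ∀ s, η s = -1 ∨ η s = 0 ∨ η s = 1) {U : Finset (Fin A.g)} (hU : ∀ s ∈ U, η s = 0)
    (h : ∀ T, (η, T) ∈ idx A.g (2 * d) → A.co z η T = 0) :
    A.int (pol A.g ^ j * z * mo (-η) U) = 0 := by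
  obtain ⟨c, hc⟩ := rep hz
  have hη' : ∀ s, (-η) s = -1 ∨ (-η) s = 0 ∨ (-η) s = 1 := by
    intro s
    simp only [Pi.neg_apply]
    rcases hη s with h | h | h <;> simp [h]
  have hU' : ∀ s ∈ U, (-η) s = 0 := by
    intro s hs
    simp [hU s hs]
  have h1 : ∀ W : Finset (Fin A.g), A.int ((∑ p ∈ idx A.g (2 * d), c p • mo p.1 p.2) *
      mo (-η) U * dT W) =
      ∑ p ∈ idx A.g (2 * d), c p * A.int (mo p.1 p.2 * mo (-η) U * dT W) := by
    intro W
    rw [sum_mul, sum_mul, map_sum]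
    refine sum_congr rfl fun p _ => ?_
    rw [smul_mul_assoc, smul_mul_assoc, map_smul, smul_eq_mul]
  rw [mul_assoc, A.g_pol_comm, g_int_mul_pol_pow, hc]
  simp only [h1]
  rw [Finset.sum_eq_zero, mul_zero]
  intro W _
  apply Finset.sum_eq_zero
  rintro ⟨θ, T'⟩ hp
  obtain ⟨hθ, hθT, hθs⟩ := mem_idx.1 hp
  by_cases he : θ = η
  · subst he
    rw [(A.co_eq_zero hc hp).1 (h T' hp), zero_mul]
  · rw [A.int_mul_ne hθ hη' hθT hU' (fun h' => he (neg_injective h').symm), mul_zero]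

/-- the bilinear form in terms of the coefficients -/
theorem int_bil {n : ℕ} (hn : 2 * n ≤ A.g) (c d : (Fin A.g → ℤ) × Finset (Fin A.g) → ℂ) :
    A.int ((∑ p ∈ idx A.g (2 * n), c p • mo p.1 p.2) * (∑ p ∈ idx A.g (2 * n), d p • mo p.1 p.2) *
        pol A.g ^ (A.g - 2 * n)) =
      ((A.g - 2 * n).factorial : ℂ) * A.top * ∑ p ∈ idx A.g (2 * n),
        ∑ T' ∈ powersetCard p.2.card (zer p.1) with Disjoint p.2 T',
          (-1 : ℂ) ^ (n - p.2.card) * (sg p.1 : ℂ) * (c (p.1, p.2) * d (-p.1, T')) := by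
  rw [g_int_mul_pol_pow]
  have h1 : ∀ W : Finset (Fin A.g), A.int ((∑ p ∈ idx A.g (2 * n), c p • mo p.1 p.2) *
      (∑ p ∈ idx A.g (2 * n), d p • mo p.1 p.2) * dT W) =
      ∑ p ∈ idx A.g (2 * n), ∑ q ∈ idx A.g (2 * n),
        c p * d q * A.int (mo p.1 p.2 * mo q.1 q.2 * dT W) := by
    intro W
    rw [sum_mul_sum, sum_mul, map_sum]
    refine sum_congr rfl fun p _ => ?_
    rw [sum_mul, map_sum]
    refine sum_congr rfl fun q _ => ?_
    rw [smul_mul_smul_comm, smul_mul_assoc, map_smul, smul_eq_mul]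
  simp only [h1]
  rw [sum_comm, mul_assoc]
  congr 1
  rw [mul_sum]
  refine sum_congr rfl fun p hp => ?_
  obtain ⟨η, T⟩ := p
  obtain ⟨hη, hT, hs⟩ := mem_idx.1 hp
  rw [sum_comm]
  have hk : size η = 2 * (n - T.card) := by omega
  have hval : ∀ T' ∈ powersetCard T.card (zer η),
      ∑ W ∈ powersetCard (A.g - 2 * n) univ, c (η, T) * d (-η, T') *
        A.int (mo η T * mo (-η) T' * dT W) =
      if Disjoint T T' then c (η, T) * d (-η, T') *
        ((-1 : ℂ) ^ (n - T.card) * (sg η : ℂ) * A.top) else 0 := by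
    intro T' hT'
    obtain ⟨hT'1, hT'2⟩ := mem_powersetCard.1 hT'
    rw [← mul_sum, A.g_sum_W hη hk hT (fun s hs => (mem_filter.1 (hT'1 hs)).2) (by omega)]
    split_ifs
    · rfl
    · rw [mul_zero]
  have hsub : ∑ q ∈ idx A.g (2 * n), ∑ W ∈ powersetCard (A.g - 2 * n) univ,
      c (η, T) * d q * A.int (mo η T * mo q.1 q.2 * dT W) =
      ∑ T' ∈ powersetCard T.card (zer η), ∑ W ∈ powersetCard (A.g - 2 * n) univ,
        c (η, T) * d (-η, T') * A.int (mo η T * mo (-η) T' * dT W) := by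
    refine Eq.trans ?_ (sum_map (powersetCard T.card (zer η))
      (⟨fun T' => (-η, T'), fun a b h => (Prod.mk.inj h).2⟩ :
        Finset (Fin A.g) ↪ (Fin A.g → ℤ) × Finset (Fin A.g))
      (fun q => ∑ W ∈ powersetCard (A.g - 2 * n) univ,
        c (η, T) * d q * A.int (mo η T * mo q.1 q.2 * dT W)))
    symm
    apply sum_subset
    · intro q hq
      obtain ⟨T', hT', rfl⟩ := mem_map.1 hq
      obtain ⟨hT'1, hT'2⟩ := mem_powersetCard.1 hT'
      apply neg_mem_idx
      exact mem_idx.2 ⟨hη, fun s hs => (mem_filter.1 (hT'1 hs)).2, by omega⟩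
    · rintro ⟨θ, T'⟩ hq hq'
      obtain ⟨hθ, hθT, hθs⟩ := mem_idx.1 hq
      have hne : θ ≠ -η := by
        rintro rfl
        apply hq'
        rw [mem_map]
        refine ⟨T', ?_, rfl⟩
        rw [mem_powersetCard]
        refine ⟨?_, ?_⟩
        · intro s hs
          refine mem_filter.2 ⟨mem_univ _, ?_⟩
          have := hθT s hs
          simpa using this
        · rw [size_neg] at hθs
          omega
      apply sum_eq_zero
      intro W _
      rw [A.int_mul_ne hη hθ hT hθT hne, mul_zero]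
  rw [hsub, sum_congr rfl hval, ← sum_filter, mul_sum]
  refine sum_congr rfl fun T' _ => ?_
  ring

end CMAb

end Pc0b458V
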