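import Pool.Agent.Lib.Pc0b458G.HL
import Pool.Agent.Lib.Pc0b458V.Main

/-!
# Classes whose weights are generated

`GenC n z`: the class `z` is a real algebraic class and all its weights which carry a class which is
not isotropic are sums of algebraic weights of size at most four.
-/

open Finset ComplexConjugate

namespace Pc0b458V

namespace CMAb

variable (A : CMAb)

/-- the weights of `z` are generated -/
def GenC (n : ℕ) (z : Coh A.g 1) : Prop :=
  z ∈ A.R1 n ∧ ∀ η T, (η, T) ∈ idx A.g (2 * n) → A.co z η T ≠ 0 → (η = 0 ∨ A.NonNull η) →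
    A.Generated η

variable {A}

theorem generated_zero : A.Generated 0 := by
  refine Generated.base 0 ⟨fun s => by simp, 0, by simp [size], ?_, ?_⟩ (by simp [size])
  · have h1 : (mon 0 : Coh A.g 1) = 1 := by
      rw [mon_eq]
      exact dT_empty
    rw [h1]
    exact Submodule.subset_span A.one_mem
  · have h1 : (mon (-0) : Coh A.g 1) = 1 := by
      rw [neg_zero, mon_eq]
      exact dT_empty
    rw [h1]
    exact Submodule.subset_span A.one_mem

theorem genC_base {n : ℕ} (hn : n ≤ 2) {z : Coh A.g 1} (hz : z ∈ A.R1 n) : A.GenC n z := by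
  refine ⟨hz, fun η T h _ hor => ?_⟩
  obtain ⟨hη, -, hs⟩ := mem_idx.1 h
  by_cases h0 : η = 0
  · rw [h0]
    exact generated_zero
  · exact Generated.base η (algebraic_of_nonNull hη h0 (hor.resolve_left h0)) (by omega)

theorem co_add (z z' : Coh A.g 1) (η : Fin A.g → ℤ) (T : Finset (Fin A.g)) :
    A.co (z + z') η T = A.co z η T + A.co z' η T := by
  rw [co, add_mul, map_add, co, co]

theorem genC_add {n : ℕ} {z z' : Coh A.g 1} (hz : A.GenC n z) (hz' : A.GenC n z') :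
    A.GenC n (z + z') := by
  refine ⟨(A.R1 n).add_mem hz.1 hz'.1, fun η T h hne hor => ?_⟩
  rw [co_add] at hne
  by_cases h1 : A.co z η T = 0
  · rw [h1, zero_add] at hne
    exact hz'.2 η T h hne hor
  · exact hz.2 η T h h1 hor

theorem I_pow_letter {e : ℤ} (h : e = -1 ∨ e = 0 ∨ e = 1) :
    (if e = 1 then Complex.I else if e = -1 then -Complex.I else 1) = Complex.I ^ e := by
  rcases h with h | h | h
  · subst h
    rw [zpow_neg_one, Complex.inv_I]
    norm_num
  · subst h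
    norm_num
  · subst h
    norm_num

theorem I_pow_ne {m : ℤ} (h1 : -3 ≤ m) (h2 : m ≤ 3) (h0 : m ≠ 0) : Complex.I ^ m ≠ 1 := by
  have hI1 : Complex.I ≠ 1 := fun h => by simpa using congrArg Complex.re h
  have hI2 : -Complex.I ≠ 1 := fun h => by simpa using congrArg Complex.re h
  have hI3 : (-1 : ℂ) ≠ 1 := by norm_num
  have e2 : Complex.I ^ (2 : ℤ) = -1 := by
    rw [show (2 : ℤ) = ((2 : ℕ) : ℤ) by norm_num, zpow_natCast, Complex.I_sq]
  have e3 : Complex.I ^ (3 : ℤ) = -Complex.I := by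
    rw [show (3 : ℤ) = 2 + 1 by norm_num, zpow_add₀ Complex.I_ne_zero, e2, zpow_one, neg_one_mul]
  have hcases : m = -3 ∨ m = -2 ∨ m = -1 ∨ m = 1 ∨ m = 2 ∨ m = 3 := by omega
  rcases hcases with h | h | h | h | h | h
  · rw [h, zpow_neg, e3, inv_neg, Complex.inv_I, neg_neg]
    exact hI1
  · rw [h, zpow_neg, e2, inv_neg, inv_one]
    exact hI3
  · rw [h, zpow_neg_one, Complex.inv_I]
    exact hI2
  · rw [h, zpow_one]
    exact hI1
  · rw [h, e2]
    exact hI3
  · rw [h, e3]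
    exact hI2

/-- the trace of a product of three monomials vanishes if the weights do not add up to zero -/
theorem int_mul3_ne {η θ ξ : Fin A.g → ℤ} {T T' U : Finset (Fin A.g)}
    (hη : ∀ s, η s = -1 ∨ η s = 0 ∨ η s = 1) (hθ : ∀ s, θ s = -1 ∨ θ s = 0 ∨ θ s = 1)
    (hξ : ∀ s, ξ s = -1 ∨ ξ s = 0 ∨ ξ s = 1)
    (hT : ∀ s ∈ T, η s = 0) (hT' : ∀ s ∈ T', θ s = 0) (hU : ∀ s ∈ U, ξ s = 0)
    (h : η + θ + ξ ≠ 0) : A.int (mo η T * mo θ T' * mo ξ U) = 0 := by
  obtain ⟨s, hs⟩ : ∃ s, η s + θ s + ξ s ≠ 0 := by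
    by_contra hcon
    push Not at hcon
    apply h
    funext s
    exact hcon s
  set u : Fin A.g → ℂ := fun t => if t = s then Complex.I else 1 with hu
  have hu1 : ∀ t, u t * conj (u t) = 1 := by
    intro t
    simp only [hu]
    split_ifs
    · rw [Complex.conj_I, mul_neg, Complex.I_mul_I, neg_neg]
    · simp
  have hz : mo η T * mo θ T' * mo ξ U ∈
      gr A.g 1 ((∑ s, lw η T s) + (∑ s, lw θ T' s) + ∑ s, lw ξ U s) :=
    mul_mem_gr (mul_mem_gr (mo_mem_gr η T) (mo_mem_gr θ T')) (mo_mem_gr ξ U)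
  have h1 := A.int_act hz hu1
  rw [map_mul (act u), map_mul (act u), act_mo, act_mo, act_mo, smul_mul_smul_comm,
    smul_mul_smul_comm, map_smul, smul_eq_mul, hu, chi_update hη hT, chi_update hθ hT',
    chi_update hξ hU] at h1
  set x := A.int (mo η T * mo θ T' * mo ξ U)
  have key : ∀ w : ℂ, w ≠ 1 → w * x = x → x = 0 := by
    intro w hw hx
    have h5 : (w - 1) * x = 0 := by rw [sub_mul, one_mul, hx, sub_self]
    rcases mul_eq_zero.1 h5 with h6 | h6
    · exact absurd (sub_eq_zero.1 h6) hw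
    · exact h6
  refine key _ ?_ h1
  rw [I_pow_letter (hη s), I_pow_letter (hθ s), I_pow_letter (hξ s),
    ← zpow_add₀ Complex.I_ne_zero, ← zpow_add₀ Complex.I_ne_zero]
  have h5 := hη s
  have h6 := hθ s
  have h7 := hξ s
  exact I_pow_ne (by omega) (by omega) hs

/-- if the weight of a product is not isotropic then the weights of the factors are not -/
theorem nonNull_factor {η θ : Fin A.g → ℤ} (hη : ∀ s, η s = -1 ∨ η s = 0 ∨ η s = 1)
    (hθ : ∀ s, θ s = -1 ∨ θ s = 0 ∨ θ s = 1)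
    (hs : ∀ s, η s + θ s = -1 ∨ η s + θ s = 0 ∨ η s + θ s = 1) {a a' b b' : ℂ}
    (h1 : A.P η a a') (ha : a ≠ 0) (h2 : A.P θ b b') (hb : b ≠ 0)
    (h : η + θ = 0 ∨ A.NonNull (η + θ)) : η = 0 ∨ A.NonNull η := by
  by_cases hη0 : η = 0
  · exact Or.inl hη0
  right
  by_cases hθ0 : θ = 0
  · rcases h with h | h
    · rw [hθ0, add_zero] at h
      exact absurd h hη0
    · rwa [hθ0, add_zero] at h
  -- a class of weight `-η`
  have key : ∃ f f', A.P (-η) f f' ∧ f ≠ 0 := by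
    by_cases h0 : η + θ = 0
    · have : -η = θ := by
        rw [neg_eq_iff_add_eq_zero]
        exact h0
      rw [this]
      exact ⟨b, b', h2, hb⟩
    · obtain ⟨c, c', hP, hc⟩ := h.resolve_left h0
      have h3 := P_neg hP
      have hζ : ∀ s, (-(η + θ)) s = -1 ∨ (-(η + θ)) s = 0 ∨ (-(η + θ)) s = 1 := by
        intro s
        have := hs s
        simp only [Pi.neg_apply, Pi.add_apply]
        omega
      have hsum : ∀ s, (-(η + θ)) s + θ s = -1 ∨ (-(η + θ)) s + θ s = 0 ∨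
          (-(η + θ)) s + θ s = 1 := by
        intro s
        have := hη s
        simp only [Pi.neg_apply, Pi.add_apply]
        omega
      have e : -(η + θ) + θ = -η := by
        funext s
        simp only [Pi.neg_apply, Pi.add_apply]
        omega
      obtain ⟨ε, hε, h4⟩ := ml_P_add hζ hθ hsum (neg_ne_zero.2 h0) hθ0
        (by rw [e]; exact neg_ne_zero.2 hη0) h3 h2
      rw [e] at h4
      refine ⟨_, _, h4, ?_⟩
      refine mul_ne_zero ?_ (mul_ne_zero (right_ne_zero_of_mul hc) hb)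
      rcases hε with h | h <;> rw [h] <;> norm_num
  obtain ⟨f, f', h3, hf⟩ := key
  have h4 := P_neg h3
  rw [neg_neg] at h4
  by_cases ha' : a' = 0
  · by_cases hf' : f' = 0
    · obtain ⟨k, hk, h5⟩ := h1
      obtain ⟨l, hl, h6⟩ := h4
      have hkl : l = k := by omega
      subst hkl
      refine ⟨a, f, ⟨l, hk, ?_⟩, mul_ne_zero ha hf⟩
      have h7 := (A.R1 l).add_mem h5 h6
      rw [ha', hf', zero_smul, zero_smul, add_zero, zero_add] at h7
      exact h7
    · exact ⟨f', f, h4, mul_ne_zero hf' hf⟩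
  · exact ⟨a, a', h1, mul_ne_zero ha ha'⟩

theorem genC_mul {m n : ℕ} {z z' : Coh A.g 1} (hz : A.GenC m z) (hz' : A.GenC n z') :
    A.GenC (m + n) (z * z') := by
  refine ⟨R1_mul hz.1 hz'.1, fun ζ V h hne hor => ?_⟩
  obtain ⟨hζ, hV, -⟩ := mem_idx.1 h
  obtain ⟨c, hc⟩ := rep (R1_gr hz.1)
  obtain ⟨d, hd⟩ := rep (R1_gr hz'.1)
  have hζ' : ∀ s, (-ζ) s = -1 ∨ (-ζ) s = 0 ∨ (-ζ) s = 1 := by
    intro s
    have := hζ s
    simp only [Pi.neg_apply]
    omega
  have h1 : A.co (z * z') ζ V = ∑ p ∈ idx A.g (2 * m), ∑ q ∈ idx A.g (2 * n),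
      c p * d q * A.int (mo p.1 p.2 * mo q.1 q.2 * mo (-ζ) (zer ζ \ V)) := by
    rw [co]
    conv_lhs => rw [hc, hd]
    rw [sum_mul_sum, sum_mul, map_sum]
    refine sum_congr rfl fun p _ => ?_
    rw [sum_mul, map_sum]
    refine sum_congr rfl fun q _ => ?_
    rw [smul_mul_smul_comm, smul_mul_assoc, map_smul, smul_eq_mul]
  rw [h1] at hne
  obtain ⟨⟨η, T⟩, hp, hne⟩ := exists_ne_zero_of_sum_ne_zero hne
  obtain ⟨⟨θ, T'⟩, hq, hne⟩ := exists_ne_zero_of_sum_ne_zero hne
  obtain ⟨hη, hT, -⟩ := mem_idx.1 hp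
  obtain ⟨hθ, hT', -⟩ := mem_idx.1 hq
  have hcp : c (η, T) ≠ 0 := left_ne_zero_of_mul (left_ne_zero_of_mul hne)
  have hdq : d (θ, T') ≠ 0 := right_ne_zero_of_mul (left_ne_zero_of_mul hne)
  have hsum : η + θ + -ζ = 0 := by
    by_contra hcon
    apply right_ne_zero_of_mul hne
    exact int_mul3_ne hη hθ hζ' hT hT' (fun s hs => by
      have := (mem_filter.1 (mem_sdiff.1 hs).1).2
      simp [this]) hcon
  have hζe : ζ = η + θ := by
    rw [← sub_eq_add_neg, sub_eq_zero] at hsum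
    exact hsum.symm
  subst hζe
  have hP1 := P_of_rep hz.1 hc hp
  have hP2 := P_of_rep hz'.1 hd hq
  have h2 := nonNull_factor hη hθ hζ hP1 hcp hP2 hdq hor
  have h3 : θ = 0 ∨ A.NonNull θ := by
    rw [add_comm η θ] at hor
    exact nonNull_factor hθ hη (fun s => by have := hζ s; rw [Pi.add_apply] at this; omega)
      hP2 hdq hP1 hcp hor
  have g1 := hz.2 η T hp (fun h => hcp ((A.co_eq_zero hc hp).1 h)) h2
  have g2 := hz'.2 θ T' hq (fun h => hdq ((A.co_eq_zero hd hq).1 h)) h3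
  exact Generated.add η θ g1 g2 fun s => by
    have := hζ s
    rw [Pi.add_apply] at this
    rw [abs_le]
    omega

theorem genC_comp {n : ℕ} {y : Coh A.g 1} {h : ℕ → Coh A.g 1} (hy : A.GenC n y)
    (hsum : y = ∑ i ∈ range (n + 1), pol A.g ^ i * h i)
    (hR : ∀ i ≤ n, h i ∈ A.R1 (n - i))
    (hprim : ∀ i ≤ n, pol A.g ^ (A.g - 2 * (n - i) + 1) * h i = 0)
    (hzero : ∀ i ≤ n, A.g + i < 2 * n → h i = 0) {i : ℕ} (hi : i ≤ n) :
    A.GenC (n - i) (h i) := by
  refine ⟨hR i hi, fun η T hT hne hor => ?_⟩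
  obtain ⟨hη, -, -⟩ := mem_idx.1 hT
  by_contra hgen
  apply hne
  refine A.wt_dec (R1_gr hy.1) hsum (fun i hi => R1_gr (hR i hi)) hprim hzero hη ?_ (n - i) i hi
    rfl T hT
  intro T' hT'
  by_contra hcon
  exact hgen (hy.2 η T' hT' hcon hor)

end CMAb

end Pc0b458V
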