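import Pool.Agent.Lib.Pc0b458G.Co

/-!
# The weights of the primitive components

`wt_dec`: if the coefficients of weight `η` of a class vanish then the coefficients of weight `η` of its
primitive components vanish.
-/

open Finset ComplexConjugate

namespace Pc0b458V

/-- the inclusion matrix is injective -/
theorem incl_zero {α : Type*} [DecidableEq α] (S : Finset α) (m : ℕ) (hS : 2 * m ≤ S.card)
    (c : Finset α → ℂ)
    (h : ∀ U ⊆ S, U.card = m → ∑ T ∈ powersetCard m S with Disjoint T U, c T = 0)
    {U : Finset α} (hU : U ⊆ S) (hm : U.card = m) : c U = 0 := by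
  have key : ∀ U ⊆ S, U.card + 1 = m →
      ∑ T ∈ powersetCard m S with Disjoint T U, c T = 0 := by
    intro U hU hc
    have h1 : ∑ s ∈ S \ U, ∑ T ∈ powersetCard m S with Disjoint T (insert s U), c T =
        ((S.card - U.card - m : ℕ) : ℂ) * ∑ T ∈ powersetCard m S with Disjoint T U, c T := by
      simp only [Finset.sum_filter]
      rw [Finset.sum_comm, Finset.mul_sum]
      refine Finset.sum_congr rfl fun T hT => ?_
      rw [mem_powersetCard] at hT
      by_cases hd : Disjoint T U
      · rw [if_pos hd]
        have h2 : ∀ s ∈ S \ U, (if Disjoint T (insert s U) then c T else 0) =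
            if s ∉ T then c T else 0 := by
          intro s _
          by_cases hs : s ∈ T
          · simp [Finset.disjoint_insert_right, hs]
          · simp [Finset.disjoint_insert_right, hs, hd]
        rw [Finset.sum_congr rfl h2, ← Finset.sum_filter, Finset.sum_const, nsmul_eq_mul]
        congr 2
        have h4 : (S \ U).filter (fun s => s ∉ T) = (S \ U) \ T := by
          ext s
          simp
        have h5 : T ⊆ S \ U := by
          intro s hs
          rw [mem_sdiff]
          exact ⟨hT.1 hs, fun h => (Finset.disjoint_left.1 hd) hs h⟩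
        rw [h4, card_sdiff_of_subset h5, card_sdiff_of_subset hU, hT.2]
      · rw [if_neg hd, mul_zero]
        apply Finset.sum_eq_zero
        intro s _
        rw [if_neg]
        intro h
        exact hd (Finset.disjoint_insert_right.1 h).2
    have h2 : ∑ s ∈ S \ U, ∑ T ∈ powersetCard m S with Disjoint T (insert s U), c T = 0 := by
      apply Finset.sum_eq_zero
      intro s hs
      rw [mem_sdiff] at hs
      apply h
      · exact Finset.insert_subset hs.1 hU
      · rw [card_insert_of_notMem hs.2]
        omega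
    rw [h2] at h1
    have h3 : ((S.card - U.card - m : ℕ) : ℂ) ≠ 0 := by
      rw [Nat.cast_ne_zero]
      omega
    exact (mul_eq_zero.1 h1.symm).resolve_left h3
  have h1 := incl S m hS c key hU hm
  rw [h U hU hm] at h1
  exact (mul_eq_zero.1 h1.symm).resolve_left (pow_ne_zero _ (by norm_num))

theorem pol_pow_mem (g j : ℕ) : pol g ^ j ∈ gr g 1 (2 * j) := by
  induction j with
  | zero => simpa using one_mem_gr
  | succ j ih =>
    rw [pow_succ]
    have : pol g ∈ gr g 1 2 := by
      rw [pol_eq]
      exact Submodule.sum_mem _ fun s _ => dd_mem_gr s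
    exact mul_mem_gr ih this

namespace CMAb

variable (A : CMAb)

theorem wt_dec {n : ℕ} {y : Coh A.g 1} {h : ℕ → Coh A.g 1} (hy : y ∈ gr A.g 1 (2 * n))
    (hsum : y = ∑ i ∈ range (n + 1), pol A.g ^ i * h i)
    (hmem : ∀ i ≤ n, h i ∈ gr A.g 1 (2 * (n - i)))
    (hprim : ∀ i ≤ n, pol A.g ^ (A.g - 2 * (n - i) + 1) * h i = 0)
    (hzero : ∀ i ≤ n, A.g + i < 2 * n → h i = 0) {η : Fin A.g → ℤ}
    (hη : ∀ s, η s = -1 ∨ η s = 0 ∨ η s = 1)
    (hv : ∀ T, (η, T) ∈ idx A.g (2 * n) → A.co y η T = 0) :
    ∀ l, ∀ i ≤ n, n - i = l → ∀ T, (η, T) ∈ idx A.g (2 * (n - i)) → A.co (h i) η T = 0 := by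
  intro l
  induction l using Nat.strong_induction_on with
  | _ l ih =>
    intro i hi hl T hT
    by_cases hsmall : A.g + i < 2 * n
    · rw [hzero i hi hsmall, co, zero_mul, map_zero]
    · rw [not_lt] at hsmall
      obtain ⟨c, hc⟩ := rep (hmem i hi)
      rw [A.co_eq_zero hc hT]
      obtain ⟨-, hTη, hs⟩ := mem_idx.1 hT
      obtain ⟨k, hk⟩ : ∃ k, size η = 2 * k := ⟨n - i - T.card, by omega⟩
      have hcard := card_zer hη
      have hTz : T ⊆ zer η := fun s hs' => mem_filter.2 ⟨mem_univ _, hTη s hs'⟩
      have hTc : T.card = n - i - k := by omega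
      refine incl_zero (zer η) (n - i - k) (by omega) (fun T => c (η, T)) ?_ hTz hTc
      intro U hU hUc
      have hU0 : ∀ s ∈ U, η s = 0 := fun s hs' => (mem_filter.1 (hU hs')).2
      have h1 := A.int_gen (d := n - i) (j := A.g - 2 * (n - i)) c hη hU0 hk (by omega) (by omega)
      rw [← hc] at h1
      -- the trace vanishes
      have h2 : A.int (pol A.g ^ (A.g + i - 2 * n) * y * mo (-η) U) = 0 :=
        A.int_zero hy hη hU0 hv
      have h3 : A.int (pol A.g ^ (A.g + i - 2 * n) * y * mo (-η) U) =
          ∑ j ∈ range (n + 1), A.int (pol A.g ^ (A.g + i - 2 * n + j) * h j * mo (-η) U) := by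
        conv_lhs => rw [hsum]
        rw [mul_sum, sum_mul, map_sum]
        refine sum_congr rfl fun j _ => ?_
        rw [pow_add, mul_assoc (pol A.g ^ (A.g + i - 2 * n)) (pol A.g ^ j) (h j)]
      rw [h2, Finset.sum_eq_single i] at h3
      · have e : A.g + i - 2 * n + i = A.g - 2 * (n - i) := by omega
        rw [e, h1] at h3
        have h4 := A.unit_ne hη k (A.g - 2 * (n - i))
        have h5 : (((A.g - 2 * (n - i)).factorial : ℕ) : ℂ) * A.top *
            ((-1 : ℂ) ^ k * (sg η : ℂ)) *
            ∑ T ∈ powersetCard (n - i - k) (zer η) with Disjoint T U, c (η, T) = 0 := by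
          rw [h3]
          ring
        exact (mul_eq_zero.1 h5).resolve_left h4
      · intro j hj hji
        rw [mem_range] at hj
        have hjn : j ≤ n := by omega
        rcases lt_or_gt_of_ne hji with hlt | hgt
        · by_cases hjs : A.g + j < 2 * n
          · rw [hzero j hjn hjs, mul_zero, zero_mul, map_zero]
          · have e : A.g + i - 2 * n + j = (i - j - 1) + (A.g - 2 * (n - j) + 1) := by omega
            rw [e, pow_add, mul_assoc (pol A.g ^ (i - j - 1)), hprim j hjn, mul_zero, zero_mul,
              map_zero]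
        · exact A.int_zero (hmem j hjn) hη hU0 (fun T' hT' => ih (n - j) (by omega) j hjn rfl T' hT')
      · intro hcon
        exact absurd (mem_range.2 (by omega)) hcon

end CMAb

end Pc0b458V
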