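import Pool.Agent.Lib.Pc0b458G.Stmt
import Pool.Agent.Lib.Pc0b458G.Pos
import Pool.Agent.Lib.Pc0b458V.Conv

/-!
# Positivity on the classes generated in codimension two
-/

universe u

namespace Pc0b458G

open Pc0b458Z

/-- The smallest system of sets of classes which contains all classes of codimension at most two
and which is closed under sums, products and primitive components. It is a system of subspaces,
since the classes of codimension zero are the rational numbers. -/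
inductive Gen (Y : NumAb.{u}) : ℕ → Y.Z → Prop
  | base {n : ℕ} {x : Y.Z} (hn : n ≤ 2) (hx : x ∈ Y.cod n) : Gen Y n x
  | add {n : ℕ} {x y : Y.Z} (hx : Gen Y n x) (hy : Gen Y n y) : Gen Y n (x + y)
  | mul {m n : ℕ} {x y : Y.Z} (hx : Gen Y m x) (hy : Gen Y n y) : Gen Y (m + n) (x * y)
  | comp {n : ℕ} {x : Y.Z} {f : ℕ → Y.Z} (hx : Gen Y n x) (h : Lef Y n x f) {i : ℕ} (hi : i ≤ n) :
      Gen Y (n - i) (f i)

section Num

variable {Y : NumAb.{u}}

theorem L_pow_mem {m : ℕ} (hm : 1 ≤ m) : Y.L ^ m ∈ Y.cod m := by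
  obtain ⟨k, rfl⟩ : ∃ k, m = k + 1 := ⟨m - 1, by omega⟩
  have := Y.L_mul_mem (i := k) Y.L_mem
  rwa [← pow_succ] at this

theorem zero_mem_cod {n : ℕ} (hn : 2 * n ≤ Y.g) {x : Y.Z} (hx : x ∈ Y.cod n) {m : ℕ} (hm : m ≤ n) :
    (0 : Y.Z) ∈ Y.cod m := by
  rcases Nat.eq_zero_or_pos m with rfl | h
  · rcases Nat.eq_zero_or_pos n with rfl | h'
    · exact Y.zero_mem 0 hx
    · have h1 : Y.L ^ (Y.g - 0) ∈ Y.cod (Y.g - 0) := L_pow_mem (by omega)
      obtain ⟨w, hw, -⟩ := Y.lef 0 (by omega) _ h1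
      exact Y.zero_mem 0 hw
  · exact Y.zero_mem m (L_pow_mem h)

theorem Gen.mem {n : ℕ} {x : Y.Z} (h : Gen Y n x) : x ∈ Y.cod n := by
  induction h with
  | base hn hx => exact hx
  | add _ _ h1 h2 => exact Y.add_mem _ _ h1 _ h2
  | mul _ _ h1 h2 => exact Y.mul_mem _ _ _ h1 _ h2
  | comp _ h hi _ => exact h.mem _ hi

theorem cod_big {k : ℕ} (hk : Y.g < k) {x : Y.Z} (hx : x ∈ Y.cod k) : x = 0 :=
  Y.num k x hx fun j hj => absurd hj (by omega)

end Num

section Sp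

variable {Y : NumAb.{u}} {A : CMAb} (S : Specialisation Y A)

include S

theorem genA_sp {n : ℕ} {x : Y.Z} (h : Gen Y n x) : ∃ y, S.sp n x y ∧ GenA A n y := by
  induction h with
  | base hn hx =>
    obtain ⟨y, hy⟩ := S.ex _ _ hx
    exact ⟨y, hy, GenA.base hn (S.alg _ _ _ hy)⟩
  | add _ _ h1 h2 =>
    obtain ⟨y, hy, hy'⟩ := h1
    obtain ⟨z, hz, hz'⟩ := h2
    exact ⟨y + z, S.add _ _ _ _ _ hy hz, GenA.add hy' hz'⟩
  | mul _ _ h1 h2 =>
    obtain ⟨y, hy, hy'⟩ := h1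
    obtain ⟨z, hz, hz'⟩ := h2
    exact ⟨y * z, S.mul _ _ _ _ _ _ hy hz, GenA.mul hy' hz'⟩
  | comp _ h hi h1 =>
    obtain ⟨y, hy, hy'⟩ := h1
    obtain ⟨k, hk, hk'⟩ := S.lef _ _ _ _ hy h
    exact ⟨k _, hk' _ hi, GenA.comp hy' hk (fun i hi => S.alg _ _ _ (hk' i hi)) hi⟩

omit S in
theorem GenA.genC {n : ℕ} {y : Coh A.g 1} (h : GenA A n y) : A.toV.GenC n y := by
  induction h with
  | base hn hy => exact Pc0b458V.CMAb.genC_base hn (Pc0b458V.CMAb.alg_R1 (A := A.toV) hy)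
  | add _ _ h1 h2 => exact Pc0b458V.CMAb.genC_add h1 h2
  | mul _ _ h1 h2 => exact Pc0b458V.CMAb.genC_mul h1 h2
  | comp _ hk hA hi h1 =>
    exact Pc0b458V.CMAb.genC_comp h1 hk.sum (fun i hi =>
      Pc0b458V.CMAb.alg_R1 (A := A.toV) (hA i hi)) hk.prim hk.zero hi

theorem sp_pow (k : ℕ) : S.sp k (Y.L ^ k) (pol A.g ^ k) := by
  induction k with
  | zero => simpa using S.one
  | succ k ih =>
    rw [pow_succ, pow_succ]
    exact S.mul _ _ _ _ _ _ ih S.pol

theorem pos_of_genA {n : ℕ} (hn : 2 * n ≤ Y.g) {x : Y.Z} (hmem : x ∈ Y.cod n)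
    (hL : Y.L ^ (Y.g - 2 * n + 1) * x = 0) (h0 : x ≠ 0) {y : Coh A.g 1} (hy : S.sp n x y)
    (hGA : GenA A n y) : 0 < (-1) ^ n * Y.deg (x * x * Y.L ^ (Y.g - 2 * n)) := by
  have hG := hGA.genC
  -- the primitive component
  have hlef : Lef Y n x (fun i => if i = 0 then x else 0) := by
    refine ⟨?_, ?_, ?_, ?_⟩
    · rw [Finset.sum_eq_single 0]
      · simp
      · intro i _ hi
        simp [hi]
      · intro h
        exact absurd (Finset.mem_range.2 (by omega)) h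
    · intro i hi
      by_cases h : i = 0
      · subst h
        simpa using hmem
      · simp only [h, if_false]
        exact zero_mem_cod hn hmem (by omega)
    · intro i hi
      by_cases h : i = 0
      · subst h
        simpa using hL
      · simp [h]
    · intro i hi hlt
      by_cases h : i = 0
      · omega
      · simp [h]
  obtain ⟨k, hk, hk'⟩ := S.lef n x y _ hy hlef
  have hz : S.sp n x (k 0) := by
    have := hk' 0 (Nat.zero_le n)
    simpa using this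
  have hGz : A.toV.GenC n (k 0) :=
    Pc0b458V.CMAb.genC_comp hG hk.sum (fun i hi =>
      Pc0b458V.CMAb.alg_R1 (A := A.toV) (S.alg _ _ _ (hk' i hi))) hk.prim hk.zero (Nat.zero_le n)
  have hprim : pol A.g ^ (A.g - 2 * n + 1) * k 0 = 0 := by
    have := hk.prim 0 (Nat.zero_le n)
    simpa using this
  have hP : A.Prim n (k 0) := by
    refine ⟨S.alg _ _ _ hz, fun j _ w _ => ?_⟩
    rw [hprim, zero_mul, A.int_zero]
  have hn' : 2 * n ≤ A.g := S.dim ▸ hn
  obtain ⟨r, hr, hr', hr0⟩ := Pc0b458V.CMAb.gpos (A := A.toV) hn' (x := k 0) hP hGz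
  have hdeg : ∀ w w', S.sp n w w' →
      A.int (k 0 * w' * pol A.g ^ (A.g - 2 * n)) = Y.deg (x * w * Y.L ^ (Y.g - 2 * n)) := by
    intro w w' hw
    have h1 := S.mul _ _ _ _ _ _ (S.mul _ _ _ _ _ _ hz hw) (sp_pow S (Y.g - 2 * n))
    have e : n + n + (Y.g - 2 * n) = Y.g := by omega
    rw [e] at h1
    have h2 := S.deg _ _ h1
    rw [S.dim] at h2
    rw [S.dim]
    exact h2
  have h1 := hdeg x (k 0) hz
  have hr2 : (-1) ^ n * A.int (k 0 * k 0 * pol A.g ^ (A.g - 2 * n)) = r := hr'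
  rw [h1] at hr2
  have h2 : ((((-1) ^ n * Y.deg (x * x * Y.L ^ (Y.g - 2 * n)) : ℚ) : ℝ) : ℂ) = (r : ℂ) := by
    rw [← hr2]
    push_cast
    rfl
  have h3 : (((-1) ^ n * Y.deg (x * x * Y.L ^ (Y.g - 2 * n)) : ℚ) : ℝ) = r :=
    Complex.ofReal_injective h2
  have h4 : (0 : ℝ) ≤ (((-1) ^ n * Y.deg (x * x * Y.L ^ (Y.g - 2 * n)) : ℚ) : ℝ) := h3 ▸ hr
  have h5 : 0 ≤ (-1) ^ n * Y.deg (x * x * Y.L ^ (Y.g - 2 * n)) := by exact_mod_cast h4
  refine lt_of_le_of_ne h5 fun h6 => h0 ?_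
  have hr1 : r = 0 := by
    rw [← h3, ← h6]
    norm_num
  have h7 := hr0 hr1
  apply Y.num n x hmem
  intro j hj z hz'
  have hj' : j = Y.g - n := by omega
  subst hj'
  obtain ⟨w, hw, rfl⟩ := Y.lef n hn z hz'
  obtain ⟨w', hw'⟩ := S.ex n w hw
  have h8 := hdeg w w' hw'
  have h9 : A.int (k 0 * w' * pol A.g ^ (A.g - 2 * n)) = 0 :=
    h7 w' (Pc0b458V.CMAb.alg_R1 (A := A.toV) (S.alg _ _ _ hw'))
  rw [h9] at h8
  have h10 : Y.deg (x * w * Y.L ^ (Y.g - 2 * n)) = 0 := by exact_mod_cast h8.symm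
  rw [← h10]
  congr 1
  ring

end Sp

section Prod

variable {X Y : NumAb.{u}} (P : Product X Y)

theorem pr_pow (k : ℕ) (x : X.Z) : P.pr (x ^ k) = P.pr x ^ k := by
  induction k with
  | zero => simpa using P.pr_one
  | succ k ih => rw [pow_succ, P.pr_mul, ih, pow_succ]

theorem pr_zero : P.pr 0 = 0 := by
  have := P.pr_add 0 0
  rw [add_zero] at this
  simpa using this

theorem pr_prim {n : ℕ} (hn : 2 * n ≤ X.g) {x : X.Z}
    (hL : X.L ^ (X.g - 2 * n + 1) * x = 0) : Y.L ^ (Y.g - 2 * n + 1) * P.pr x = 0 := by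
  rw [P.L_eq, add_pow, Finset.sum_mul]
  apply Finset.sum_eq_zero
  intro m hm
  rw [Finset.mem_range, P.dim] at hm
  rw [P.dim]
  by_cases h1 : P.b + 1 ≤ X.g + P.b - 2 * n + 1 - m
  · obtain ⟨k, hk⟩ := Nat.exists_eq_add_of_le h1
    rw [hk, pow_add, P.M_pow, zero_mul, mul_zero, zero_mul, zero_mul]
  · have h2 : X.g - 2 * n + 1 ≤ m := by omega
    obtain ⟨k, hk⟩ := Nat.exists_eq_add_of_le h2
    have h3 : P.pr X.L ^ m * P.pr x = 0 := by
      rw [hk, add_comm, pow_add, mul_assoc, ← pr_pow P (X.g - 2 * n + 1), ← P.pr_mul, hL, pr_zero,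
        mul_zero]
    have e : P.pr X.L ^ m * P.M ^ (X.g + P.b - 2 * n + 1 - m) *
        ((X.g + P.b - 2 * n + 1).choose m : Y.Z) * P.pr x =
        (P.pr X.L ^ m * P.pr x) * (P.M ^ (X.g + P.b - 2 * n + 1 - m) *
        ((X.g + P.b - 2 * n + 1).choose m : Y.Z)) := by ring
    rw [e, h3, zero_mul]

theorem pr_form {n : ℕ} (hn : 2 * n ≤ X.g) {x : X.Z} (hx : x ∈ X.cod n) :
    Y.deg (P.pr x * P.pr x * Y.L ^ (Y.g - 2 * n)) =
      ((X.g + P.b - 2 * n).choose (X.g - 2 * n) : ℚ) * P.degB *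
        X.deg (x * x * X.L ^ (X.g - 2 * n)) := by
  have hxx : ∀ m, X.L ^ m * (x * x) ∈ X.cod (m + (n + n)) := fun m =>
    X.L_mul_mem (X.mul_mem n n _ hx _ hx)
  have h1 : P.pr x * P.pr x * Y.L ^ (Y.g - 2 * n) =
      ((X.g + P.b - 2 * n).choose (X.g - 2 * n) : Y.Z) *
        (P.pr (X.L ^ (X.g - 2 * n) * (x * x)) * P.M ^ P.b) := by
    rw [P.L_eq, add_pow, Finset.mul_sum, P.dim, Finset.sum_eq_single (X.g - 2 * n)]
    · have e : X.g + P.b - 2 * n - (X.g - 2 * n) = P.b := by omega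
      rw [e, P.pr_mul, P.pr_mul, pr_pow]
      ring
    · intro m hm hne
      rw [Finset.mem_range] at hm
      rcases lt_or_gt_of_ne hne with h | h
      · have h2 : P.b + 1 ≤ X.g + P.b - 2 * n - m := by omega
        obtain ⟨k, hk⟩ := Nat.exists_eq_add_of_le h2
        rw [hk, pow_add, P.M_pow, zero_mul, mul_zero, zero_mul, mul_zero]
      · have h3 : X.L ^ m * (x * x) = 0 := cod_big (by omega) (hxx m)
        have h4 : P.pr X.L ^ m * (P.pr x * P.pr x) = 0 := by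
          rw [← pr_pow, ← P.pr_mul, ← P.pr_mul, h3, pr_zero]
        have e : P.pr x * P.pr x * (P.pr X.L ^ m * P.M ^ (X.g + P.b - 2 * n - m) *
            ((X.g + P.b - 2 * n).choose m : Y.Z)) =
            (P.pr X.L ^ m * (P.pr x * P.pr x)) * (P.M ^ (X.g + P.b - 2 * n - m) *
            ((X.g + P.b - 2 * n).choose m : Y.Z)) := by ring
        rw [e, h4, zero_mul]
    · intro h
      exact absurd (Finset.mem_range.2 (by omega)) h
  have h2 : X.L ^ (X.g - 2 * n) * (x * x) ∈ X.cod X.g := by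
    have := hxx (X.g - 2 * n)
    convert this using 2
    omega
  rw [h1, Y.deg_nsmul, P.deg_eq _ h2, mul_comm (X.L ^ (X.g - 2 * n))]
  ring

theorem pr_ne {n : ℕ} {x : X.Z} (hx : x ∈ X.cod n) (h0 : x ≠ 0) : P.pr x ≠ 0 := by
  intro h
  apply h0
  apply X.num n x hx
  intro j hj y hy
  have h1 : x * y ∈ X.cod X.g := hj ▸ X.mul_mem n j _ hx _ hy
  have h2 := P.deg_eq _ h1
  rw [P.pr_mul, h, zero_mul, zero_mul, Y.deg_zero] at h2
  exact (mul_eq_zero.1 h2.symm).resolve_left P.degB_pos.ne'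

end Prod

/-- positivity on the classes generated in codimension two -/
theorem main {X Y : NumAb.{u}} (P : Product X Y) {A : CMAb} (S : Specialisation Y A) {n : ℕ}
    (hn : 2 * n ≤ X.g) {x : X.Z} (hx : x ∈ X.cod n) (hL : X.L ^ (X.g - 2 * n + 1) * x = 0)
    (h0 : x ≠ 0) {y : Coh A.g 1} (hy : S.sp n (P.pr x) y) (h : GenA A n y) :
    0 < (-1) ^ n * X.deg (x * x * X.L ^ (X.g - 2 * n)) := by
  have hn' : 2 * n ≤ Y.g := by rw [P.dim]; omega
  have h1 := pos_of_genA S hn' (P.pr_mem n x hx) (pr_prim P hn hL) (pr_ne P hx h0) hy h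
  rw [pr_form P hn hx] at h1
  have h2 : (0 : ℚ) < ((X.g + P.b - 2 * n).choose (X.g - 2 * n) : ℚ) * P.degB := by
    have h3 : 0 < (X.g + P.b - 2 * n).choose (X.g - 2 * n) := Nat.choose_pos (by omega)
    have h4 := P.degB_pos
    positivity
  have e : (-1) ^ n * (((X.g + P.b - 2 * n).choose (X.g - 2 * n) : ℚ) * P.degB *
      X.deg (x * x * X.L ^ (X.g - 2 * n))) =
      (((X.g + P.b - 2 * n).choose (X.g - 2 * n) : ℚ) * P.degB) *
        ((-1) ^ n * X.deg (x * x * X.L ^ (X.g - 2 * n))) := by ring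
  rw [e] at h1
  exact (mul_pos_iff_of_pos_left h2).1 h1

/-- positivity on the classes generated in codimension two on `Y` -/
theorem main_gen {X Y : NumAb.{u}} (P : Product X Y) {A : CMAb} (S : Specialisation Y A) {n : ℕ}
    (hn : 2 * n ≤ X.g) {x : X.Z} (hx : x ∈ X.cod n) (hL : X.L ^ (X.g - 2 * n + 1) * x = 0)
    (h0 : x ≠ 0) (h : Gen Y n (P.pr x)) :
    0 < (-1) ^ n * X.deg (x * x * X.L ^ (X.g - 2 * n)) := by
  obtain ⟨y, hy, hG⟩ := genA_sp S h
  exact main P S hn hx hL h0 hy hG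

end Pc0b458G
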