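import Pool.Agent.Lib.Pc0b458V.Stmt

/-!
# Cycle classes generated in codimension two

The setting of `MP_c0b458_ag`. `Pc0b458Z.NumAb` (file `Pool.Agent.Lib.Pc0b458V.Stmt`) is the ring of
cycles modulo numerical equivalence on a polarised abelian variety over a field, and
`Pc0b458Z.CMAb` lists elementary properties of the classes of effective cycles on an abelian
variety with complex multiplication over an algebraic closure of a finite field.

`GenA A n` is the set of the classes of codimension `n` on `A` which are obtained from classes of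
codimension at most two by sums, products and primitive components.
-/

universe u

namespace Pc0b458G

open Pc0b458Z

/-- The Lefschetz decomposition `x = ∑ L ^ i * f i` of a class `x` of codimension `n`: the class `f i`
is primitive of codimension `n - i`, and it is zero if `g + i < 2 n`. -/
structure Lef (Y : NumAb.{u}) (n : ℕ) (x : Y.Z) (f : ℕ → Y.Z) : Prop where
  sum : x = ∑ i ∈ Finset.range (n + 1), Y.L ^ i * f i
  mem : ∀ i ≤ n, f i ∈ Y.cod (n - i)
  prim : ∀ i ≤ n, Y.L ^ (Y.g - 2 * (n - i) + 1) * f i = 0
  zero : ∀ i ≤ n, Y.g + i < 2 * n → f i = 0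

/-- The Lefschetz decomposition `y = ∑ pol ^ i * h i` in the cohomology ring of `A`. -/
structure CohLef (A : CMAb) (n : ℕ) (y : Coh A.g 1) (h : ℕ → Coh A.g 1) : Prop where
  sum : y = ∑ i ∈ Finset.range (n + 1), pol A.g ^ i * h i
  mem : ∀ i ≤ n, InDeg (2 * (n - i)) (h i)
  prim : ∀ i ≤ n, pol A.g ^ (A.g - 2 * (n - i) + 1) * h i = 0
  zero : ∀ i ≤ n, A.g + i < 2 * n → h i = 0

/-- The smallest system of sets of classes of algebraic cycles on `A` which contains all classes of
codimension at most two and which is closed under sums, products and primitive components. (The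
primitive components of the class of an algebraic cycle on an abelian variety are classes of
algebraic cycles.) It is a system of rational vector spaces, since the rational numbers are classes
of codimension zero. -/
inductive GenA (A : CMAb) : ℕ → Coh A.g 1 → Prop
  | base {n : ℕ} {y : Coh A.g 1} (hn : n ≤ 2) (hy : y ∈ A.alg n) : GenA A n y
  | add {n : ℕ} {y z : Coh A.g 1} (hy : GenA A n y) (hz : GenA A n z) : GenA A n (y + z)
  | mul {m n : ℕ} {y z : Coh A.g 1} (hy : GenA A m y) (hz : GenA A n z) : GenA A (m + n) (y * z)
  | comp {n : ℕ} {y : Coh A.g 1} {h : ℕ → Coh A.g 1} (hy : GenA A n y) (hh : CohLef A n y h)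
      (hA : ∀ i ≤ n, h i ∈ A.alg (n - i)) {i : ℕ} (hi : i ≤ n) : GenA A (n - i) (h i)

/-- `A` is a reduction of `Y`, or `Y` itself. Cycles on `Y` specialise to cycles on `A`, and this is
compatible with intersections and degrees. -/
structure Specialisation (Y : NumAb.{u}) (A : CMAb) where
  dim : Y.g = A.g
  /-- `sp n x y`: some cycle of codimension `n` on `Y` has the numerical class `x`, and its
  specialisation has the cohomology class `y` -/
  sp : ℕ → Y.Z → Coh A.g 1 → Prop
  alg : ∀ n x y, sp n x y → y ∈ A.alg n
  ex : ∀ n, ∀ x ∈ Y.cod n, ∃ y, sp n x y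
  one : sp 0 1 1
  pol : sp 1 Y.L (pol A.g)
  add : ∀ n x y x' y', sp n x y → sp n x' y' → sp n (x + x') (y + y')
  mul : ∀ m n x y x' y', sp m x y → sp n x' y' → sp (m + n) (x * x') (y * y')
  deg : ∀ x y, sp Y.g x y → A.int y = Y.deg x
  /-- the projections to the primitive components are given by algebraic cycles, which can be
  specialised -/
  lef : ∀ n x y f, sp n x y → Lef Y n x f → ∃ h, CohLef A n y h ∧ ∀ i ≤ n, sp (n - i) (f i) (h i)

/-- `Y` is the product of `X` with a polarised abelian variety `B` (for example a point). -/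
structure Product (X Y : NumAb.{u}) where
  /-- the dimension of `B` -/
  b : ℕ
  dim : Y.g = X.g + b
  /-- pull-back under the projection to `X` -/
  pr : X.Z → Y.Z
  pr_one : pr 1 = 1
  pr_add : ∀ x y, pr (x + y) = pr x + pr y
  pr_mul : ∀ x y, pr (x * y) = pr x * pr y
  pr_mem : ∀ n, ∀ x ∈ X.cod n, pr x ∈ Y.cod n
  /-- pull-back of the class of the polarisation of `B` -/
  M : Y.Z
  L_eq : Y.L = pr X.L + M
  M_pow : M ^ (b + 1) = 0
  /-- the degree of the polarisation of `B` -/
  degB : ℚ
  degB_pos : 0 < degB
  deg_eq : ∀ x ∈ X.cod X.g, Y.deg (pr x * M ^ b) = degB * X.deg x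

end Pc0b458G
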